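import Pool.Agent.BER.StmtsE

/-!
# Squad BER, row SYB (helper3): the ball and the shell; radial functions are invariant
-/

set_option autoImplicit false

namespace Pool.Agent.BER.H3

open Set Filter Topology MeasureTheory
open scoped InnerProductSpace ENNReal
open Pool.Agent.BE01 Pool.Agent.BEL Pool.Agent.BEF Pool.Agent.BEN Pool.Agent.BEH Pool.Agent.BEG
open Pool.Agent.BEO (Pl BB ev lap rho)
open Pool.Agent.BER

variable {d : ℕ}

theorem mv_norm {g : (En d ≃ₗᵢ[ℝ] En d) × En d} (hg : g ∈ GO d) (x : En d) : ‖mv g x‖ = ‖x‖ := by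
  have h0 : g.2 = 0 := hg
  unfold mv
  rw [h0, add_zero, LinearIsometryEquiv.norm_map]

theorem mv_image {g : (En d ≃ₗᵢ[ℝ] En d) × En d} (hg : g ∈ GO d) (N : ℝ → Prop) :
    mv g '' {x | N ‖x‖} = {x | N ‖x‖} := by
  ext y
  constructor
  · rintro ⟨x, hx, rfl⟩
    show N ‖mv g x‖
    rw [mv_norm hg]
    exact hx
  · intro hy
    have h0 : g.2 = 0 := hg
    refine ⟨g.1.symm y, ?_, ?_⟩
    · show N ‖g.1.symm y‖
      rw [LinearIsometryEquiv.norm_map]
      exact hy
    · unfold mv
      rw [h0, add_zero, LinearIsometryEquiv.apply_symm_apply]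

theorem exists_norm (hd : 1 ≤ d) {c : ℝ} (hc : 0 ≤ c) : ∃ x : En d, ‖x‖ = c := by
  refine ⟨EuclideanSpace.single ⟨0, hd⟩ c, ?_⟩
  rw [PiLp.norm_single, Real.norm_eq_abs, abs_of_nonneg hc]

theorem syb (mgp : MgpStmt) : SybStmt := by
  refine ⟨?_, ?_, ?_⟩
  · intro d R hd hR
    refine ⟨⟨?_, ?_, ?_⟩, ?_⟩
    · exact Metric.isOpen_ball
    · exact Metric.isBounded_ball
    · exact ⟨0, Metric.mem_ball_self hR⟩
    · intro g hg
      have h1 : BB d R = {x : En d | ‖x‖ < R} := by
        ext x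
        exact mem_ball_zero_iff
      rw [h1]
      exact mv_image hg (fun t => t < R)
  · intro d a b hd ha hab
    refine ⟨⟨?_, ?_, ?_⟩, ?_⟩
    · exact (isOpen_lt continuous_const continuous_norm).inter
        (isOpen_lt continuous_norm continuous_const)
    · refine (Metric.isBounded_ball (x := (0 : En d)) (r := b)).subset fun x hx => ?_
      rw [mem_ball_zero_iff]
      exact hx.2
    · obtain ⟨x, hx⟩ := exists_norm hd (show (0 : ℝ) ≤ (a + b) / 2 by linarith)
      refine ⟨x, ?_⟩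
      show a < ‖x‖ ∧ ‖x‖ < b
      rw [hx]
      constructor <;> linarith
    · intro g hg
      exact mv_image hg (fun t => a < t ∧ t < b)
  · intro d Ω h f hΩ hS hf g hg
    obtain ⟨h1, -⟩ := mgp d Ω g hΩ.1 (hS g hg)
    have h2 : (fun x => f (mv g x)) =ᵐ[mu Ω] fun x => h ‖mv g x‖ :=
      h1.quasiMeasurePreserving.ae_eq_comp hf
    refine h2.trans ?_
    have h3 : (fun x => h ‖mv g x‖) = fun x => h ‖x‖ := by
      funext x
      rw [mv_norm hg]
    rw [h3]
    exact hf.symm

end Pool.Agent.BER.H3
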